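import Pool.Agent.Y606.AN.Enc

/-!
# Annihilation with one unrestricted token and confined tokens is EXPTIME-hard

For one token type which may use all edges the outcome is computed in polynomial time (Fraenkel and
Yesha). Here a single such token is put on a digraph together with tokens of a second type, each of
which is confined to its own region of at most four vertices. The problem becomes EXPTIME-hard, for
each of the three outcomes.

The positions are those of the starting result ExptimeHard with more moves: the token of type `0`
may use all edges. Entering a region of a token of type `1` without annihilating it loses at once,
therefore the additional moves do not change the outcomes.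
-/

set_option autoImplicit false

namespace Pool.Agent.Results.MP_8c4891_lc.OneUnrestrictedToken

open Pool.Agent.NPC Pool.Agent.NPC.ANN Pool.Agent.H820R2.SS Pool.Agent.Y606.AN

/-- Every language `S` which correctly answers, for all confined Annihilation positions (two token
types, exactly one token of type `0`, which may use every edge of the digraph, and tokens of type
`1` confined to pairwise disjoint regions with at most four vertices, at most one in each region),
whether the player to move can force a win (or: whether the other player can; or: whether the
position is a draw), is hard for EXPTIME under polynomial-time many-one reductions. -/
theorem result (S : Set (List Bool)) :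
    ((∀ A : Annih, IsPosition A → Confined A → (bits A ∈ S ↔ MoverWins A)) →
      ∀ L : Set (List Bool), InEXPTIME L → Reduces L S) ∧
    ((∀ A : Annih, IsPosition A → Confined A → (bits A ∈ S ↔ OtherWins A)) →
      ∀ L : Set (List Bool), InEXPTIME L → Reduces L S) ∧
    ((∀ A : Annih, IsPosition A → Confined A → (bits A ∈ S ↔ Drawn A)) →
      ∀ L : Set (List Bool), InEXPTIME L → Reduces L S) :=
  ⟨fun hS _ hL => Pool.Agent.Y606.AN.hard_win hS hL,
    fun hS _ hL => Pool.Agent.Y606.AN.hard_lose hS hL,
    fun hS _ hL => Pool.Agent.Y606.AN.hard_draw hS hL⟩

end Pool.Agent.Results.MP_8c4891_lc.OneUnrestrictedToken
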